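import Pool.Agent.Y852.RQ.Defs
import Pool.Agent.Y852.RQ.F

/-!
# Reductive algebras generated by commuting operators (MP_65e938_an, stronger form)

Let `𝒢` be a set of commuting operators such that for every `T` in `𝒢` some non-constant polynomial
`p(T)` is (weakly) quasi-similar to a spectral operator of finite type `N + Q` (`N` normal, `Q`
nilpotent, `N Q = Q N`), where `p`, the second Hilbert space and the intertwining operators may depend
on `T`.  Then the weakly closed algebra generated by `𝒢` is reductive if and only if it is
self-adjoint, and in this case all its members are normal.  The problem is the case `𝒢 = {A}`,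
`p(z) = z`, `Q = 0`.
-/

set_option autoImplicit false

namespace Pool.Agent.Results.MP_65e938_an.CommutingReductiveAlgebras

universe u v
open ContinuousLinearMap Polynomial Pool.Agent.Y852.RQ

/-- The weakly closed algebra generated by a commuting set `𝒢` of operators, each of which has a
non-constant polynomial that is weakly quasi-similar to a spectral operator of finite type, is
reductive if and only if it is closed under adjoints and consists of normal operators. -/
theorem result {H : Type u} [NormedAddCommGroup H] [InnerProductSpace ℂ H] [CompleteSpace H]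
    (𝒢 : Set (H →L[ℂ] H)) (hc : ∀ A ∈ 𝒢, ∀ B ∈ 𝒢, Commute A B)
    (h : ∀ T ∈ 𝒢, ∃ p : ℂ[X], 0 < p.natDegree ∧
      ∃ (K : Type v) (_ : NormedAddCommGroup K) (_ : InnerProductSpace ℂ K)
        (_ : CompleteSpace K) (B : K →L[ℂ] K), FiniteType B ∧ WeakQS (aeval T p) B) :
    Reductive (genAlg 𝒢) ↔ ∀ S ∈ genAlg 𝒢, adjoint S ∈ genAlg 𝒢 ∧ IsStarNormal S :=
  family 𝒢 hc h

end Pool.Agent.Results.MP_65e938_an.CommutingReductiveAlgebras
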