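import Pool.Agent.Y852.RQ.Defs
import Pool.Agent.Y852.RQ.F

/-!
# Normality and hyperinvariant subspaces (MP_65e938_an, stronger form)

If `A` is (weakly) quasi-similar to a spectral operator of finite type `N + Q` (`N` normal, `Q`
nilpotent, `N Q = Q N`), then `A` is normal if and only if every hyperinvariant subspace of `A`
reduces `A`.  Reductivity of the algebra generated by `A` says that all invariant subspaces reduce `A`,
so this contains the answer to the problem, and it is an equivalence.
-/

set_option autoImplicit false

namespace Pool.Agent.Results.MP_65e938_an.HyperinvariantCriterion

universe u v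
open Pool.Agent.Y852.RQ

/-- An operator weakly quasi-similar to a spectral operator of finite type is normal if and only if
all its hyperinvariant subspaces are reducing. -/
theorem result {H : Type u} [NormedAddCommGroup H] [InnerProductSpace ℂ H] [CompleteSpace H]
    (A : H →L[ℂ] H)
    (h : ∃ (K : Type v) (_ : NormedAddCommGroup K) (_ : InnerProductSpace ℂ K)
      (_ : CompleteSpace K) (B : K →L[ℂ] K), FiniteType B ∧ WeakQS A B) :
    IsStarNormal A ↔ HyperReductive A :=
  hyper_iff A h

end Pool.Agent.Results.MP_65e938_an.HyperinvariantCriterion
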